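import Pool.Agent.Q61.MH.Stm

/-! Upper bound for the zeros of `P k` (job UPP of project MH, helper61). -/

set_option autoImplicit false

namespace Pool.Agent.Q154.MH

open Pool.Agent.Q61.MH

theorem upp (h : S_uni) : S_upp := by
  intro k hk r hr hP
  have hQ : 0 < Qk k r := (h k hk r hr hP.le).1
  have hk1 : (1 : ℝ) ≤ k := by exact_mod_cast hk
  have hmm : 0 < mm k := by unfold mm; nlinarith
  have hnn : 0 < nn k := by unfold nn; nlinarith
  have ha : 0 < mm k + 3 := by linarith
  have hr1 : 1 ≤ r := hr.le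
  -- Bernoulli, lower bound for the second difference
  have h1 : r * nn k ^ (r - 1) ≤ (nn k + 1) ^ r - nn k ^ r := by
    have hb := one_add_mul_self_le_rpow_one_add (s := 1 / nn k) (by
      have : 0 ≤ 1 / nn k := by positivity
      linarith) hr1
    have e1 : (nn k + 1) ^ r = nn k ^ r * (1 + 1 / nn k) ^ r := by
      rw [← Real.mul_rpow hnn.le (by positivity)]
      congr 1
      field_simp
    have e2 : nn k ^ r = nn k ^ (r - 1) * nn k := by
      rw [Real.rpow_sub_one hnn.ne']
      field_simp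
    have e3 : nn k ^ r * (1 + r * (1 / nn k)) ≤ nn k ^ r * (1 + 1 / nn k) ^ r :=
      mul_le_mul_of_nonneg_left hb (Real.rpow_nonneg hnn.le r)
    have e4 : nn k ^ r * (1 + r * (1 / nn k)) = nn k ^ r + r * nn k ^ (r - 1) := by
      rw [e2]
      field_simp
    rw [e1]
    linarith
  have h2 : (mm k + 3) ^ r - mm k ^ r ≤ 3 * (r * (mm k + 3) ^ (r - 1)) := by
    have hb := one_add_mul_self_le_rpow_one_add (s := -(3 / (mm k + 3))) (by
      have : 3 / (mm k + 3) ≤ 1 := by
        rw [div_le_one ha]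
        linarith
      linarith) hr1
    have hpos : 0 ≤ 1 + -(3 / (mm k + 3)) := by
      have : 3 / (mm k + 3) ≤ 1 := by
        rw [div_le_one ha]
        linarith
      linarith
    have e1 : mm k ^ r = (mm k + 3) ^ r * (1 + -(3 / (mm k + 3))) ^ r := by
      rw [← Real.mul_rpow ha.le hpos]
      congr 1
      field_simp
      ring
    have e2 : (mm k + 3) ^ r = (mm k + 3) ^ (r - 1) * (mm k + 3) := by
      rw [Real.rpow_sub_one ha.ne']
      field_simp
    have e3 : (mm k + 3) ^ r * (1 + r * -(3 / (mm k + 3))) ≤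
        (mm k + 3) ^ r * (1 + -(3 / (mm k + 3))) ^ r :=
      mul_le_mul_of_nonneg_left hb (Real.rpow_nonneg ha.le r)
    have e4 : (mm k + 3) ^ r * (1 + r * -(3 / (mm k + 3))) =
        (mm k + 3) ^ r - 3 * (r * (mm k + 3) ^ (r - 1)) := by
      rw [e2]
      field_simp
      ring
    rw [e1]
    linarith
  have h3 : r * nn k ^ (r - 1) < 3 * (r * (mm k + 3) ^ (r - 1)) := by
    unfold Qk at hQ
    linarith
  have hr0 : 0 < r := by linarith
  have h4 : nn k ^ (r - 1) < 3 * (mm k + 3) ^ (r - 1) := by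
    have : r * nn k ^ (r - 1) < r * (3 * (mm k + 3) ^ (r - 1)) := by linarith
    exact lt_of_mul_lt_mul_left this hr0.le
  have h5 : Real.log (nn k ^ (r - 1)) < Real.log (3 * (mm k + 3) ^ (r - 1)) :=
    Real.log_lt_log (Real.rpow_pos_of_pos hnn _) h4
  rw [Real.log_mul (by norm_num) (Real.rpow_pos_of_pos ha _).ne', Real.log_rpow hnn,
    Real.log_rpow ha] at h5
  have h6 : Real.log (nn k) - Real.log (mm k + 3) = Real.log (((k : ℝ) + 2) / ((k : ℝ) + 1)) := by
    rw [← Real.log_div hnn.ne' ha.ne']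
    congr 1
    unfold nn mm
    have : (2 * (k : ℝ) ^ 2 + 3 * k - 2 + 3) ≠ 0 := by nlinarith
    rw [div_eq_div_iff this (by positivity)]
    ring
  have h7 : 1 / ((k : ℝ) + 2) ≤ Real.log (((k : ℝ) + 2) / ((k : ℝ) + 1)) := by
    have h8 := Real.one_sub_inv_le_log_of_pos
      (show 0 < ((k : ℝ) + 2) / ((k : ℝ) + 1) by positivity)
    have h9 : 1 - (((k : ℝ) + 2) / ((k : ℝ) + 1))⁻¹ = 1 / ((k : ℝ) + 2) := by
      field_simp
      ring
    linarith
  have h10 : (r - 1) * (1 / ((k : ℝ) + 2)) < Real.log 3 := by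
    have : (r - 1) * (1 / ((k : ℝ) + 2)) ≤
        (r - 1) * Real.log (((k : ℝ) + 2) / ((k : ℝ) + 1)) :=
      mul_le_mul_of_nonneg_left h7 (by linarith)
    rw [← h6] at this
    linarith
  have h11 : (r - 1) < ((k : ℝ) + 2) * Real.log 3 := by
    have h12 : 0 < (k : ℝ) + 2 := by positivity
    have := mul_lt_mul_of_pos_left h10 h12
    have e : ((k : ℝ) + 2) * ((r - 1) * (1 / ((k : ℝ) + 2))) = r - 1 := by field_simp
    linarith
  linarith

end Pool.Agent.Q154.MH
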